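import Mathlib

set_option autoImplicit false

namespace Pool.Agent.Results.MP_dbc085_nt.NotConvex

open PowerSeries Finset

/-- `β(z) = z / (e^z - 1) = ∑ B_j z^j / j!`, as a power series with coefficients in `ℚ[x]`. -/
noncomputable def beta : PowerSeries (Polynomial ℚ) :=
  PowerSeries.mk fun j => Polynomial.C (bernoulli j / (j.factorial : ℚ))

/-- The polynomial `s_j` with `s_j(N) = ∑_{i=1}^N i^j`, given by Faulhaber's formula. -/
noncomputable def powerSum (j : ℕ) : Polynomial ℚ :=
  ∑ i ∈ range (j + 1),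
    Polynomial.C (bernoulli' i * ((j + 1).choose i : ℚ) / (j + 1)) * Polynomial.X ^ (j + 1 - i)

/-- `powerSum j` is the polynomial of power sums. -/
theorem powerSum_eval (j N : ℕ) :
    (powerSum j).eval (N : ℚ) = ∑ i ∈ Icc 1 N, (i : ℚ) ^ j := by
  have h := sum_Ico_pow N j
  have e : Ico 1 (N + 1) = Icc 1 N := by ext x; simp
  rw [e] at h
  rw [h, powerSum, Polynomial.eval_finsetSum]
  refine Finset.sum_congr rfl fun i _ => ?_
  rw [Polynomial.eval_mul, Polynomial.eval_C, Polynomial.eval_pow, Polynomial.eval_X]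
  ring

/-- The exponent `∑_{j=1}^r (-1)^{j+1} B_j / (j j!) (s_j(x) - x) z^j`. -/
noncomputable def expo (r : ℕ) : PowerSeries (Polynomial ℚ) :=
  ∑ j ∈ Icc 1 r, PowerSeries.C
    (Polynomial.C ((-1) ^ (j + 1) * bernoulli j / (j * (j.factorial : ℚ))) *
      (powerSum j - Polynomial.X)) * PowerSeries.X ^ j

/-- The polynomial `P_{01r}`. -/
noncomputable def P01 (r : ℕ) : Polynomial ℚ :=
  Polynomial.C ((-4) ^ r * (r.factorial : ℚ)) *
    PowerSeries.coeff r (PowerSeries.exp (Polynomial ℚ) * beta ^ (r + 1) *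
      (PowerSeries.exp (Polynomial ℚ)).subst (expo r))

theorem expo_const (r : ℕ) : PowerSeries.constantCoeff (expo r) = 0 := by
  rw [expo, map_sum]
  refine Finset.sum_eq_zero fun j hj => ?_
  rw [mem_Icc] at hj
  rw [map_mul, map_pow, PowerSeries.constantCoeff_X, zero_pow (by omega), mul_zero]

theorem coeff_pow_zero (A : PowerSeries (Polynomial ℚ)) (hA : PowerSeries.constantCoeff A = 0)
    (d n : ℕ) (h : n < d) : PowerSeries.coeff n (A ^ d) = 0 := by
  obtain ⟨B, rfl⟩ : PowerSeries.X ∣ A := PowerSeries.X_dvd_iff.mpr hA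
  rw [mul_pow, PowerSeries.coeff_X_pow_mul', if_neg (by omega)]

theorem coeff_exp_subst (A : PowerSeries (Polynomial ℚ)) (hA : PowerSeries.constantCoeff A = 0)
    (n : ℕ) : PowerSeries.coeff n ((PowerSeries.exp (Polynomial ℚ)).subst A) =
      ∑ d ∈ range (n + 1), Polynomial.C (1 / (d.factorial : ℚ)) * PowerSeries.coeff n (A ^ d) := by
  rw [PowerSeries.coeff_subst' (HasSubst.of_constantCoeff_zero' hA)]
  rw [finsum_eq_sum_of_support_subset (s := range (n + 1))]
  · refine Finset.sum_congr rfl fun d _ => ?_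
    rw [PowerSeries.coeff_exp, smul_eq_mul]
    rfl
  · intro d hd
    rw [Function.mem_support] at hd
    rw [coe_range, Set.mem_Iio]
    by_contra hcon
    apply hd
    rw [coeff_pow_zero A hA d n (by omega), smul_zero]

/-! ### Evaluation -/

/-- `β` over `ℚ`. -/
noncomputable def betaQ : PowerSeries ℚ := PowerSeries.mk fun j => bernoulli j / (j.factorial : ℚ)

theorem map_beta (x : ℚ) : PowerSeries.map (Polynomial.evalRingHom x) beta = betaQ := by
  ext n
  rw [PowerSeries.coeff_map, beta, betaQ, PowerSeries.coeff_mk, PowerSeries.coeff_mk,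
    Polynomial.coe_evalRingHom, Polynomial.eval_C]

/-- The exponent at `x = N`. -/
noncomputable def expoQ (r N : ℕ) : PowerSeries ℚ :=
  ∑ j ∈ Icc 1 r, PowerSeries.C
    (((-1) ^ (j + 1) * bernoulli j / (j * (j.factorial : ℚ))) *
      (∑ i ∈ Icc 1 N, (i : ℚ) ^ j - N)) * PowerSeries.X ^ j

theorem map_expo (r N : ℕ) :
    PowerSeries.map (Polynomial.evalRingHom (N : ℚ)) (expo r) = expoQ r N := by
  rw [expo, expoQ, map_sum]
  refine Finset.sum_congr rfl fun j _ => ?_
  rw [map_mul, map_pow, PowerSeries.map_X, PowerSeries.map_C, Polynomial.coe_evalRingHom,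
    Polynomial.eval_mul, Polynomial.eval_C, Polynomial.eval_sub, powerSum_eval, Polynomial.eval_X]

/-- `exp` of the exponent at `x = N`. -/
noncomputable def eQ (r N : ℕ) : PowerSeries ℚ :=
  PowerSeries.mk fun n => ∑ d ∈ range (n + 1),
    (1 / (d.factorial : ℚ)) * PowerSeries.coeff n (expoQ r N ^ d)

theorem P01_eval (r N : ℕ) : (P01 r).eval (N : ℚ) = (-4) ^ r * (r.factorial : ℚ) *
    PowerSeries.coeff r (PowerSeries.exp ℚ * betaQ ^ (r + 1) * eQ r N) := by
  have hE : PowerSeries.map (Polynomial.evalRingHom (N : ℚ))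
      ((PowerSeries.exp (Polynomial ℚ)).subst (expo r)) = eQ r N := by
    ext n
    rw [PowerSeries.coeff_map, coeff_exp_subst _ (expo_const r), eQ, PowerSeries.coeff_mk, map_sum]
    refine Finset.sum_congr rfl fun d _ => ?_
    rw [map_mul, Polynomial.coe_evalRingHom, Polynomial.eval_C, ← Polynomial.coe_evalRingHom,
      ← PowerSeries.coeff_map, map_pow, map_expo]
  have key : PowerSeries.map (Polynomial.evalRingHom (N : ℚ))
      (PowerSeries.exp (Polynomial ℚ) * beta ^ (r + 1) *
      (PowerSeries.exp (Polynomial ℚ)).subst (expo r)) =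
      PowerSeries.exp ℚ * betaQ ^ (r + 1) * eQ r N := by
    rw [map_mul, map_mul, map_pow, map_beta, PowerSeries.map_exp, hE]
  rw [P01, Polynomial.eval_mul, Polynomial.eval_C, ← key, PowerSeries.coeff_map,
    Polynomial.coe_evalRingHom]

/-! ### Truncated computation with lists -/

/-- `l` lists the coefficients of `f` in degrees `0, …, 8`. -/
def Agree (f : PowerSeries ℚ) (l : List ℚ) : Prop :=
  ∀ n, n < 9 → PowerSeries.coeff n f = l.getD n 0

/-- Truncated product. -/
def mulL (a b : List ℚ) : List ℚ :=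
  (List.range 9).map fun n => ((List.range (n + 1)).map fun i => a.getD i 0 * b.getD (n - i) 0).sum

theorem list_sum (m : ℕ) (F : ℕ → ℚ) : ((List.range m).map F).sum = ∑ x ∈ range m, F x := by
  induction m with
  | zero => simp
  | succ m ih =>
    rw [List.range_succ, List.map_append, List.sum_append, ih, Finset.sum_range_succ]
    simp

theorem Agree.mul {f g : PowerSeries ℚ} {a b : List ℚ} (hf : Agree f a) (hg : Agree g b) :
    Agree (f * g) (mulL a b) := by
  intro n hn
  rw [PowerSeries.coeff_mul, Finset.Nat.sum_antidiagonal_eq_sum_range_succ_mk, mulL,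
    List.getD_eq_getElem?_getD, List.getElem?_map, List.getElem?_range hn]
  simp only [Option.map_some, Option.getD_some]
  rw [list_sum]
  refine Finset.sum_congr rfl fun x hx => ?_
  rw [Finset.mem_range] at hx
  rw [hf x (by omega), hg (n - x) (by omega)]

theorem bern_list : bernoulli' 5 = 0 ∧ bernoulli' 6 = 1 / 42 ∧ bernoulli' 7 = 0 ∧
    bernoulli' 8 = -1 / 30 := by
  have h5 : bernoulli' 5 = 0 := bernoulli'_eq_zero_of_odd (by decide) (by norm_num)
  have h7 : bernoulli' 7 = 0 := bernoulli'_eq_zero_of_odd (by decide) (by norm_num)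
  have h6 : bernoulli' 6 = 1 / 42 := by
    rw [bernoulli'_def]
    norm_num [sum_range_succ, Nat.choose, h5]
  have h8 : bernoulli' 8 = -1 / 30 := by
    rw [bernoulli'_def]
    norm_num [sum_range_succ, Nat.choose, h5, h6, h7]
  exact ⟨h5, h6, h7, h8⟩

theorem bernoulli_values : bernoulli 0 = 1 ∧ bernoulli 1 = -1 / 2 ∧ bernoulli 2 = 1 / 6 ∧
    bernoulli 3 = 0 ∧ bernoulli 4 = -1 / 30 ∧ bernoulli 5 = 0 ∧ bernoulli 6 = 1 / 42 ∧
    bernoulli 7 = 0 ∧ bernoulli 8 = -1 / 30 := by
  obtain ⟨h5, h6, h7, h8⟩ := bern_list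
  refine ⟨bernoulli_zero, bernoulli_one, ?_, ?_, ?_, ?_, ?_, ?_, ?_⟩
  · rw [bernoulli_eq_bernoulli'_of_ne_one (by norm_num), bernoulli'_two]
  · rw [bernoulli_eq_bernoulli'_of_ne_one (by norm_num), bernoulli'_three]
  · rw [bernoulli_eq_bernoulli'_of_ne_one (by norm_num), bernoulli'_four]
  · rw [bernoulli_eq_bernoulli'_of_ne_one (by norm_num), h5]
  · rw [bernoulli_eq_bernoulli'_of_ne_one (by norm_num), h6]
  · rw [bernoulli_eq_bernoulli'_of_ne_one (by norm_num), h7]
  · rw [bernoulli_eq_bernoulli'_of_ne_one (by norm_num), h8]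

def lExp : List ℚ := [1, 1, 1/2, 1/6, 1/24, 1/120, 1/720, 1/5040, 1/40320]

theorem agree_exp : Agree (PowerSeries.exp ℚ) lExp := by
  intro n hn
  rw [PowerSeries.coeff_exp]
  interval_cases n <;> norm_num [lExp, Nat.factorial]

def lBeta : List ℚ := [1, -1/2, 1/12, 0, -1/720, 0, 1/30240, 0, -1/1209600]

theorem agree_beta : Agree betaQ lBeta := by
  obtain ⟨h0, h1, h2, h3, h4, h5, h6, h7, h8⟩ := bernoulli_values
  intro n hn
  rw [betaQ, PowerSeries.coeff_mk]
  interval_cases n <;> norm_num [lBeta, Nat.factorial, h0, h1, h2, h3, h4, h5, h6, h7, h8]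

/-- The coefficients of the exponent at `x = 3`. -/
def lA : List ℚ := [0, -3/2, -11/24, 0, 19/576, 0, -113/25920, 0, 1363/1935360]

theorem coeff_expoQ (N n : ℕ) (hn : n < 9) : PowerSeries.coeff n (expoQ 8 N) =
    if n = 0 then 0 else ((-1) ^ (n + 1) * bernoulli n / (n * (n.factorial : ℚ))) *
      (∑ i ∈ Icc 1 N, (i : ℚ) ^ n - N) := by
  rw [expoQ, map_sum]
  simp only [PowerSeries.coeff_C_mul, PowerSeries.coeff_X_pow]
  split_ifs with h
  · subst h
    refine Finset.sum_eq_zero fun j hj => ?_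
    rw [mem_Icc] at hj
    rw [if_neg (by omega), mul_zero]
  · rw [Finset.sum_eq_single n]
    · rw [if_pos rfl, mul_one]
    · intro j _ hj
      rw [if_neg (Ne.symm hj), mul_zero]
    · intro h'
      exact absurd (mem_Icc.mpr ⟨by omega, by omega⟩) h'

theorem agree_A : Agree (expoQ 8 3) lA := by
  obtain ⟨h0, h1, h2, h3, h4, h5, h6, h7, h8⟩ := bernoulli_values
  intro n hn
  rw [coeff_expoQ 3 n hn]
  interval_cases n <;>
    norm_num [lA, Nat.factorial, h0, h1, h2, h3, h4, h5, h6, h7, h8, Finset.sum_Icc_succ_top]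

theorem agree_A0 : Agree (expoQ 8 0) [] := by
  intro n hn
  rw [coeff_expoQ 0 n hn]
  split_ifs <;> simp

theorem agree_A1 : Agree (expoQ 8 1) [] := by
  intro n hn
  rw [coeff_expoQ 1 n hn]
  split_ifs <;> simp

/-- Truncated powers. -/
def powL (a : List ℚ) : ℕ → List ℚ
  | 0 => [1]
  | d + 1 => mulL (powL a d) a

theorem Agree.pow {f : PowerSeries ℚ} {a : List ℚ} (hf : Agree f a) (d : ℕ) :
    Agree (f ^ d) (powL a d) := by
  induction d with
  | zero =>
    intro n hn
    rw [pow_zero, PowerSeries.coeff_one, powL]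
    rcases n with _ | n
    · simp
    · simp
  | succ d ih =>
    rw [pow_succ, powL]
    exact ih.mul hf

/-- Truncated exponential. -/
def expL (a : List ℚ) : List ℚ :=
  (List.range 9).map fun n =>
    ((List.range (n + 1)).map fun d => (1 / (d.factorial : ℚ)) * (powL a d).getD n 0).sum

theorem agree_eQ {N : ℕ} {a : List ℚ} (h : Agree (expoQ 8 N) a) : Agree (eQ 8 N) (expL a) := by
  intro n hn
  rw [eQ, PowerSeries.coeff_mk, expL, List.getD_eq_getElem?_getD, List.getElem?_map,
    List.getElem?_range hn]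
  simp only [Option.map_some, Option.getD_some]
  rw [list_sum]
  refine Finset.sum_congr rfl fun d _ => ?_
  rw [h.pow d n hn]

theorem P8_eval {N : ℕ} {a : List ℚ} (h : Agree (expoQ 8 N) a) : (P01 8).eval (N : ℚ) =
    (-4) ^ 8 * ((Nat.factorial 8 : ℕ) : ℚ) *
      (mulL (mulL lExp (powL lBeta 9)) (expL a)).getD 8 0 := by
  rw [P01_eval]
  congr 1
  exact ((agree_exp.mul (agree_beta.pow 9)).mul (agree_eQ h)) 8 (by norm_num)

theorem val3 : (mulL (mulL lExp (powL lBeta 9)) (expL lA)).getD 8 0 < 0 := by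
  decide +kernel

theorem val0 : (mulL (mulL lExp (powL lBeta 9)) (expL [])).getD 8 0 = 0 := by
  decide +kernel

theorem P8_three : (P01 8).eval 3 < 0 := by
  have h := P8_eval agree_A
  rw [Nat.cast_ofNat] at h
  rw [h]
  exact mul_neg_of_pos_of_neg (by positivity) val3

theorem P8_zero : (P01 8).eval 0 = 0 := by
  have h := P8_eval agree_A0
  rw [Nat.cast_zero] at h
  rw [h, val0, mul_zero]

theorem P8_one : (P01 8).eval 1 = 0 := by
  have h := P8_eval agree_A1
  rw [Nat.cast_one] at h
  rw [h, val0, mul_zero]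

/-- **Q1 is false.** The polynomial `P_{018}` is not convex: its second derivative is negative at
some real point. (Indeed `P_{018}(0) = P_{018}(1) = 0` and `P_{018}(3) < 0`.) -/
theorem result : ∃ x₀ : ℝ,
    (((P01 8).map (algebraMap ℚ ℝ)).derivative.derivative).eval x₀ < 0 := by
  by_contra hcon
  push Not at hcon
  set p : Polynomial ℝ := (P01 8).map (algebraMap ℚ ℝ) with hp
  have hd1 : deriv (fun x => p.eval x) = fun x => p.derivative.eval x := by
    funext x; exact p.deriv
  have hd2 : deriv (fun x => p.derivative.eval x) = fun x => p.derivative.derivative.eval x := by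
    funext x; exact p.derivative.deriv
  have hconv : ConvexOn ℝ Set.univ (fun x => p.eval x) := by
    apply convexOn_univ_of_deriv2_nonneg p.differentiable
    · rw [hd1]; exact p.derivative.differentiable
    · intro x
      rw [Function.iterate_succ, Function.iterate_one, Function.comp, hd1, hd2]
      exact hcon x
  have h0 : p.eval 0 = 0 := by
    have := Polynomial.eval_natCast_map (algebraMap ℚ ℝ) (P01 8) 0
    rw [Nat.cast_zero, Nat.cast_zero, P8_zero, map_zero] at this
    exact this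
  have h1 : p.eval 1 = 0 := by
    have := Polynomial.eval_natCast_map (algebraMap ℚ ℝ) (P01 8) 1
    rw [Nat.cast_one, Nat.cast_one, P8_one, map_zero] at this
    exact this
  have h3 : p.eval 3 < 0 := by
    have := Polynomial.eval_natCast_map (algebraMap ℚ ℝ) (P01 8) 3
    rw [Nat.cast_ofNat, Nat.cast_ofNat] at this
    rw [hp, this, eq_ratCast]
    exact_mod_cast P8_three
  have := hconv.2 (Set.mem_univ 0) (Set.mem_univ 3) (by norm_num : (0 : ℝ) ≤ 2 / 3)
    (by norm_num : (0 : ℝ) ≤ 1 / 3) (by norm_num)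
  simp only [smul_eq_mul] at this
  have e : (2 : ℝ) / 3 * 0 + 1 / 3 * 3 = 1 := by norm_num
  rw [e, h0, h1] at this
  linarith

end Pool.Agent.Results.MP_dbc085_nt.NotConvex
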